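import Pool.Agent.MWA.Stmts

/-! # Row TNF of squad MWA -/

set_option autoImplicit false

namespace Pool.Agent.MWA.H22

open Pool.Agent.Helper14_MV Pool.Agent.Helper2_MV Pool.Agent.MVO Pool.Agent.MWL Pool.Agent.MWS

theorem eq_of_const {l l' : List ℕ} (a : ℕ) (h : ∀ x ∈ l, x = a)
    (hc : ∀ x, l.count x = l'.count x) : l = l' := by
  have h1 := List.eq_replicate_of_mem h
  have h2 : l.Perm l' := List.perm_iff_count.2 hc
  rw [h1] at h2
  have h3 := List.perm_replicate.1 h2.symm
  rw [h3]
  exact h1

theorem count_filter' (p : ℕ → Bool) {l l' : List ℕ} (hc : ∀ x, l.count x = l'.count x) (x : ℕ) :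
    (l.filter p).count x = (l'.filter p).count x := by
  by_cases hx : p x = true
  · rw [List.count_filter hx, List.count_filter hx, hc x]
  · rw [List.count_eq_zero.2, List.count_eq_zero.2]
    · intro h
      exact hx (List.mem_filter.1 h).2
    · intro h
      exact hx (List.mem_filter.1 h).2

theorem tnf (hN : NfaStmt) : TnfStmt := by
  intro β hβ k B B' hB hB' hT hT' hcount hlast
  refine hN β hβ k B B' hB.ok hB'.ok hcount hB.ml ?_
  intro c d hc hd
  set p : ℕ → Bool := fun x => decide (x = c ∨ x = d) with hp
  -- the last filtered block
  have hL : ∀ i ≤ k, (∀ j, i < j → j ≤ k → (B j).filter p = []) →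
      ((B i).filter p).getLast? = ((B' i).filter p).getLast? := by
    intro i hi hlater
    have hcf : ∀ x, ((B i).filter p).count x = ((B' i).filter p).count x :=
      count_filter' p (hcount i hi)
    by_cases h0 : 0 ∈ (B i).filter p
    · by_cases h1 : 1 ∈ (B i).filter p
      · have hp0 : p 0 = true := (List.mem_filter.1 h0).2
        have hp1 : p 1 = true := (List.mem_filter.1 h1).2
        have hfil : ∀ j ≤ k, (B j).filter p = B j := fun j hj => List.filter_eq_self.2 fun x hx => by
          rcases hT j hj x hx with rfl | rfl
          · exact hp0
          · exact hp1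
        have hfil' : ∀ j ≤ k, (B' j).filter p = B' j := fun j hj =>
          List.filter_eq_self.2 fun x hx => by
            rcases hT' j hj x hx with rfl | rfl
            · exact hp0
            · exact hp1
        rw [hfil i hi, hfil' i hi]
        have hz : ∀ (x : ℕ) (j : ℕ), i < j → j ≤ k → ty B x j = 0 := by
          intro x j hij hjk
          have h2 := hlater j hij hjk
          rw [hfil j hjk] at h2
          unfold ty
          rw [h2]
          rfl
        refine hlast i ⟨hi, ?_, hz 0⟩ ⟨hi, ?_, hz 1⟩
        · exact fun h => List.count_eq_zero.1 h (List.mem_filter.1 h0).1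
        · exact fun h => List.count_eq_zero.1 h (List.mem_filter.1 h1).1
      · rw [eq_of_const 0 (fun x hx => ?_) hcf]
        rcases hT i hi x (List.mem_filter.1 hx).1 with h2 | h2
        · exact h2
        · rw [h2] at hx
          exact absurd hx h1
    · rw [eq_of_const 1 (fun x hx => ?_) hcf]
      rcases hT i hi x (List.mem_filter.1 hx).1 with h2 | h2
      · rw [h2] at hx
        exact absurd hx h0
      · exact h2
  have hnil : ∀ j ≤ k, (B j).filter p = [] → (B' j).filter p = [] := by
    intro j hj h
    have hcf : ∀ x, ((B j).filter p).count x = ((B' j).filter p).count x :=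
      count_filter' p (hcount j hj)
    rw [h] at hcf
    rw [List.eq_nil_iff_forall_not_mem]
    intro x hx
    have h1 := hcf x
    rw [List.count_nil] at h1
    exact List.count_eq_zero.1 h1.symm hx
  -- separators are removed
  have hsep : ∀ m, m + 1 ≤ k → p (m + 2) = false := by
    intro m hm
    rw [hp]
    simp only [decide_eq_false_iff_not]
    rintro (h | h)
    · exact hc ⟨by omega, by omega⟩
    · exact hd ⟨by omega, by omega⟩
  have key : ∀ m ≤ k, (∀ j, m < j → j ≤ k → (B j).filter p = []) →
      ((asm m B).filter p).getLast? = ((asm m B').filter p).getLast? := by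
    intro m
    induction m with
    | zero =>
      intro hm hlater
      exact hL 0 hm hlater
    | succ m ih =>
      intro hm hlater
      simp only [asm]
      have hs := hsep m hm
      rw [List.filter_append, List.filter_append, List.filter_cons, List.filter_cons, hs]
      simp only [Bool.false_eq_true, if_false]
      rw [List.getLast?_append, List.getLast?_append]
      by_cases hne : (B (m + 1)).filter p = []
      · rw [hne, hnil (m + 1) hm hne]
        have h1 := ih (by omega) (fun j hj hjk => by
          rcases Nat.lt_or_ge (m + 1) j with h2 | h2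
          · exact hlater j h2 hjk
          · have : j = m + 1 := by omega
            rw [this]
            exact hne)
        rw [h1]
      · have h1 := hL (m + 1) hm hlater
        rw [← h1]
        obtain ⟨x, hx⟩ : ∃ x, ((B (m + 1)).filter p).getLast? = some x := by
          rw [List.getLast?_eq_some_getLast hne]
          exact ⟨_, rfl⟩
        rw [hx]
        rfl
  exact key k le_rfl fun j hj hjk => absurd hjk (by omega)

end Pool.Agent.MWA.H22
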